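import Pool.Agent.E8helper46.FL.Main3

/-!
# Irreducible uniform lattices in `H × S_L` for disconnected `L` are not algebraically fibred
-/

set_option autoImplicit false

namespace Pool.Agent.Results.MP_d2fa5a_al.NotFibredH46

open Pool.Agent.E8helper46.FL

/-- Let `L` be a finite graph (the 1-skeleton of a finite flag complex) which is not connected, let
`H` be the isometry group of a symmetric space of non-positive curvature, let `S_L` be the isometry
group of the universal cover of the Salvetti complex, and let `Γ` be an irreducible uniform lattice
in `H × S_L`. Then `Γ` is not algebraically fibred.

* `IsSymmetricSpaceGroup H`: `H` is isomorphic as a topological group to `Isom(E^k) × G` with a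
  group `G` of noncompact type: a closed self-adjoint group of real matrices with polar
  decomposition, which has no Euclidean factor and acts faithfully on its symmetric space. The
  isometry group of every symmetric space of non-positive curvature is such a group: `E^k` is the
  Euclidean factor of the symmetric space (de Rham), and `G` is the isometry group of the other
  factor in its adjoint representation, in an orthonormal basis for the form given by the Killing
  form and the Cartan involution.
* `Vert L` is the vertex set of the universal cover with the distance in the 1-skeleton, which is
  the Cayley graph of the right-angled Artin group. As `L` is not connected, the isometries of the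
  universal cover permute the vertices, and two vertices are adjacent if and only if their CAT(0)
  distance is one, hence `S_L` is the isometry group of `Vert L`. -/
theorem result {V : Type} [Finite V] (L : SimpleGraph V) (hL : ¬ L.Connected)
    {H : Type} [Group H] [TopologicalSpace H] [IsTopologicalGroup H]
    (hH : IsSymmetricSpaceGroup H) (Γ : Subgroup (H × (Vert L ≃ᵢ Vert L)))
    (hd : DiscreteTopology Γ) (hc : CompactSpace ((H × (Vert L ≃ᵢ Vert L)) ⧸ Γ))
    (hirr : IsIrreducible Γ) : ¬ AlgFibred Γ :=
  main3 L hL hH Γ hd hc hirr

end Pool.Agent.Results.MP_d2fa5a_al.NotFibredH46
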